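import Pool.Graph.R_seed8.Results.MP_1b6454_pr.NoSignRealisation

/-!
# MP_1b6454_pr: a uniform gap

For `p ≠ 1/2` the Gaussian copula correlation function `ψ(p,p;·)` is not only different from every `h_χ`: it
stays away from all of them, even for Borel functions `χ : ℝ → [-1,1]`, and even when the two functions are
compared only on a set `R ⊆ [0,1)` with an accumulation point in `[0,1)`.

Proof: weak compactness of the unit ball of `L²(γ)`; a weak limit `χ` of functions whose `h` approach `ψ` on `R`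
has `h_χ = ψ` on `R`, hence on `(0,1)` by the identity theorem. Since `ψ(ρ) → 1` for `ρ → 1`, Bessel's inequality
gives `E χ² ≥ 1`, so `χ = ± 1` almost everywhere, and this is excluded.
-/

set_option autoImplicit false

open MeasureTheory ProbabilityTheory Polynomial Filter
open scoped Nat NNReal Topology ENNReal

namespace Pool.Agent.Results.MP_1b6454_pr.UniformGap

/-- the normalised probabilists' Hermite polynomials, by the Rodrigues formula of the problem -/
noncomputable def H (n : ℕ) (x : ℝ) : ℝ :=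
  (-1) ^ n / √(n ! : ℝ) * Real.exp (x ^ 2 / 2) * deriv^[n] (fun y : ℝ => Real.exp (-y ^ 2 / 2)) x

/-- the constant `c(p) = 2π p(1-p) e^{a²}`, where `a = Φ⁻¹(p)` -/
noncomputable def c (p a : ℝ) : ℝ := 2 * Real.pi * p * (1 - p) * Real.exp (a ^ 2)

/-- the Gaussian copula correlation function
`ψ(p,p;ρ) = (1/c(p)) ∑_{n ≥ 1} (1/n) H_{n-1}(a)² ρⁿ`, where `a = Φ⁻¹(p)` -/
noncomputable def psi (p a ρ : ℝ) : ℝ :=
  1 / c p a * ∑' n : ℕ, 1 / ((n : ℝ) + 1) * H n a ^ 2 * ρ ^ (n + 1)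

/-- the centred bivariate normal law with standard marginals and correlation `ρ`: the law of
`(X, ρ X + √(1-ρ²) Z)` for independent standard normal `X`, `Z` -/
noncomputable def bivariate (ρ : ℝ) : Measure (ℝ × ℝ) :=
  ((gaussianReal 0 1).prod (gaussianReal 0 1)).map (fun q => (q.1, ρ * q.1 + √(1 - ρ ^ 2) * q.2))

open Pool.Agent.R232.SG

lemma H_sq (n : ℕ) (x : ℝ) : H n x ^ 2 = He n x ^ 2 / (n ! : ℝ) := NoSignRealisation.H_sq n x

lemma norm_sq_toLp (f : ℝ → ℝ) (hf : MemLp f 2 gam) : ‖hf.toLp f‖ ^ 2 = ∫ x, f x ^ 2 ∂gam := by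
  rw [← real_inner_self_eq_norm_sq, MeasureTheory.L2.inner_def]
  refine integral_congr_ae ?_
  filter_upwards [hf.coeFn_toLp] with x h1
  rw [h1]
  simp only [RCLike.inner_apply, conj_trivial]
  ring

/-- Bessel's inequality -/
lemma bessel_le (f : ℝ → ℝ) (hf : MemLp f 2 gam) :
    ∑' n : ℕ, cf f n ^ 2 / (n ! : ℝ) ≤ ∫ x, f x ^ 2 ∂gam := by
  have hn : ∀ n : ℕ, MemLp (fun x => (√(n ! : ℝ))⁻¹ * He n x) 2 gam := fun n =>
    (He_memLp n).const_mul _
  let e : ℕ → Lp ℝ 2 gam := fun n => (hn n).toLp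
  have horth : Orthonormal ℝ e := by
    rw [orthonormal_iff_ite]
    intro i j
    rw [MeasureTheory.L2.inner_def]
    have h1 : ∫ x, inner ℝ (e i x) (e j x) ∂gam =
        ∫ x, ((√(i ! : ℝ))⁻¹ * He i x) * ((√(j ! : ℝ))⁻¹ * He j x) ∂gam := by
      refine integral_congr_ae ?_
      filter_upwards [(hn i).coeFn_toLp, (hn j).coeFn_toLp] with x h1 h2
      simp only [e, h1, h2, RCLike.inner_apply, conj_trivial]
      ring
    rw [h1]
    have h2 : ∀ x, ((√(i ! : ℝ))⁻¹ * He i x) * ((√(j ! : ℝ))⁻¹ * He j x) =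
        ((√(i ! : ℝ))⁻¹ * (√(j ! : ℝ))⁻¹) * (He i x * He j x) := fun x => by ring
    simp_rw [h2]
    rw [integral_const_mul, orth]
    by_cases h : i = j
    · subst h
      rw [if_pos rfl, if_pos rfl, ← mul_inv, Real.mul_self_sqrt (by positivity)]
      exact inv_mul_cancel₀ (by positivity)
    · rw [if_neg h, if_neg h, mul_zero]
  have h3 := horth.tsum_inner_products_le (hf.toLp f)
  rw [norm_sq_toLp] at h3
  refine le_trans (le_of_eq (tsum_congr fun n => ?_)) h3
  rw [MeasureTheory.L2.inner_def]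
  have h1 : ∫ x, inner ℝ (e n x) (hf.toLp f x) ∂gam = (√(n ! : ℝ))⁻¹ * cf f n := by
    unfold cf
    rw [← integral_const_mul]
    refine integral_congr_ae ?_
    filter_upwards [(hn n).coeFn_toLp, hf.coeFn_toLp] with x h1 h2
    simp only [e, h1, h2, RCLike.inner_apply, conj_trivial]
    ring
  rw [h1, Real.norm_eq_abs, sq_abs, mul_pow, inv_pow, Real.sq_sqrt (by positivity)]
  ring

/-! ### The power series of `ψ` -/

/-- the coefficients of `ψ` -/
noncomputable def v (p a : ℝ) (n : ℕ) : ℝ := if n = 0 then 0 else 1 / c p a * (1 / (n : ℝ) * H (n - 1) a ^ 2)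

lemma v_zero (p a : ℝ) : v p a 0 = 0 := by simp [v]

lemma v_succ (p a : ℝ) (n : ℕ) : v p a (n + 1) = 1 / c p a * (1 / ((n : ℝ) + 1) * H n a ^ 2) := by
  simp [v]

lemma c_pos (p a : ℝ) (hp0 : 0 < p) (hp1 : p < 1) : 0 < c p a := by
  unfold c
  have h1 : 0 < 1 - p := by linarith
  have := Real.pi_pos
  positivity

lemma H_bound (a : ℝ) : ∃ M : ℝ, 0 ≤ M ∧ ∀ n : ℕ, 1 / ((n : ℝ) + 1) * H n a ^ 2 ≤ M := by
  obtain ⟨M, hM0, hM⟩ := He_bound |a|
  refine ⟨M, hM0, fun n => ?_⟩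
  have h := hM n a le_rfl
  rw [← H_sq] at h
  rw [one_div, inv_mul_le_iff₀ (by positivity)]
  linarith

lemma v_bound (p a : ℝ) (hp0 : 0 < p) (hp1 : p < 1) : ∃ B : ℝ, ∀ n, |v p a n| ≤ B := by
  obtain ⟨M, hM0, hM⟩ := H_bound a
  have hc := c_pos p a hp0 hp1
  refine ⟨1 / c p a * M, fun n => ?_⟩
  rcases n with _ | n
  · rw [v_zero, abs_zero]
    positivity
  · rw [v_succ, abs_of_nonneg (by positivity)]
    exact mul_le_mul_of_nonneg_left (hM n) (by positivity)

lemma psi_hasSum (p a : ℝ) (r : ℝ) (hr0 : 0 ≤ r) (hr1 : r < 1) :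
    HasSum (fun n => r ^ n * v p a n) (psi p a r) := by
  obtain ⟨M, hM0, hM⟩ := H_bound a
  have hs : Summable fun n : ℕ => 1 / ((n : ℝ) + 1) * H n a ^ 2 * r ^ (n + 1) := by
    refine Summable.of_nonneg_of_le (fun n => by positivity) (fun n => ?_)
      ((summable_geometric_of_lt_one hr0 hr1).mul_left (M * r))
    calc 1 / ((n : ℝ) + 1) * H n a ^ 2 * r ^ (n + 1) ≤ M * r ^ (n + 1) :=
          mul_le_mul_of_nonneg_right (hM n) (by positivity)
      _ = M * r * r ^ n := by ring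
  have h2 := (hs.hasSum.mul_left (1 / c p a))
  have h3 : HasSum (fun n : ℕ => r ^ (n + 1) * v p a (n + 1)) (psi p a r) := by
    unfold psi
    refine h2.congr_fun fun n => ?_
    rw [v_succ]
    ring
  refine (hasSum_nat_add_iff' (f := fun n => r ^ n * v p a n) 1).mp ?_
  simp only [Finset.sum_range_one, v_zero, mul_zero, sub_zero]
  exact h3

/-- the indicator of `[a, ∞)` -/
noncomputable def F (a : ℝ) : ℝ → ℝ := Set.indicator (Set.Ici a) (fun _ => (1 : ℝ))

lemma F_meas (a : ℝ) : Measurable (F a) := measurable_const.indicator measurableSet_Ici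

lemma F_bound (a : ℝ) (x : ℝ) : |F a x| ≤ 1 := by
  unfold F
  by_cases h : x ∈ Set.Ici a
  · rw [Set.indicator_of_mem h]; simp
  · rw [Set.indicator_of_notMem h]; simp

instance : NullSingletonClass gam := nullSingletonClass_gaussianReal one_ne_zero

lemma gam_Ici (p a : ℝ) (ha : (gaussianReal 0 1).real (Set.Iic a) = p) : gam.real (Set.Ici a) = 1 - p := by
  have h1 : gam.real (Set.Iio a) = p := by
    rw [← ha]
    exact measureReal_congr Iio_ae_eq_Iic
  have h2 : Set.Ici a = (Set.Iio a)ᶜ := by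
    ext x; simp
  rw [h2, measureReal_compl measurableSet_Iio, probReal_univ, h1]

lemma int_F (p a : ℝ) (ha : (gaussianReal 0 1).real (Set.Iic a) = p) : ∫ x, F a x ∂gam = 1 - p := by
  unfold F
  rw [integral_indicator measurableSet_Ici, setIntegral_const, gam_Ici p a ha]
  simp

lemma biv_F_tendsto (p a : ℝ) (ha : (gaussianReal 0 1).real (Set.Iic a) = p) :
    Tendsto (fun r : ℝ => biv (F a) (F a) r) (𝓝[<] 1) (𝓝 (1 - p)) := by
  have hR : Tendsto (fun r : ℝ => biv (F a) (F a) r) (𝓝[<] 1)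
      (𝓝 (∫ q : ℝ × ℝ, F a q.1 * F a q.1 ∂(gam.prod gam))) := by
    unfold biv
    refine tendsto_integral_filter_of_dominated_convergence (fun _ => 1) ?_ ?_ (integrable_const _) ?_
    · refine Eventually.of_forall fun r => Measurable.aestronglyMeasurable ?_
      exact ((F_meas a).comp measurable_fst).mul ((F_meas a).comp (by fun_prop))
    · refine Eventually.of_forall fun r => Eventually.of_forall fun q => ?_
      rw [Real.norm_eq_abs, abs_mul]
      exact mul_le_one₀ (F_bound a _) (abs_nonneg _) (F_bound a _)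
    · have hne : ∀ᵐ q ∂(gam.prod gam), q.1 ≠ a := by
        have h1 : ∀ᵐ x ∂gam, x ≠ a := by
          rw [ae_iff]
          simp only [ne_eq, not_not, Set.ofPred_eq_eq_singleton]
          exact measure_singleton a
        exact (Measure.quasiMeasurePreserving_fst (μ := gam) (ν := gam)).ae h1
      filter_upwards [hne] with q hq
      have h1 : Tendsto (fun r : ℝ => r * q.1 + √(1 - r ^ 2) * q.2) (𝓝 1)
          (𝓝 ((1 : ℝ) * q.1 + √(1 - (1 : ℝ) ^ 2) * q.2)) :=
        (Continuous.tendsto (by fun_prop) 1)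
      have h2 : (1 : ℝ) * q.1 + √(1 - (1 : ℝ) ^ 2) * q.2 = q.1 := by norm_num
      rw [h2] at h1
      refine Tendsto.mono_left ?_ nhdsWithin_le_nhds
      refine tendsto_const_nhds.congr' ?_
      rcases lt_or_gt_of_ne hq with h | h
      · filter_upwards [h1.eventually (Iio_mem_nhds h)] with r hr
        have e1 : F a q.1 = 0 := Set.indicator_of_notMem (by simpa using h) _
        rw [e1, zero_mul, zero_mul]
      · filter_upwards [h1.eventually (Ioi_mem_nhds h)] with r hr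
        have e1 : F a q.1 = 1 := Set.indicator_of_mem (by simpa using h.le) _
        have e2 : F a (r * q.1 + √(1 - r ^ 2) * q.2) = 1 := by
          apply Set.indicator_of_mem
          exact le_of_lt hr
        rw [e1, e2]
  have hR2 : ∫ q : ℝ × ℝ, F a q.1 * F a q.1 ∂(gam.prod gam) = ∫ x, F a x * F a x ∂gam := by
    have := integral_prod_mul (μ := gam) (ν := gam) (fun x => F a x * F a x) (fun _ => (1 : ℝ))
    simp only [mul_one, integral_const, probReal_univ, smul_eq_mul] at this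
    exact this
  have hR3 : ∫ x, F a x * F a x ∂gam = ∫ x, F a x ∂gam := by
    refine integral_congr_ae (Eventually.of_forall fun x => ?_)
    unfold F
    by_cases h : x ∈ Set.Ici a
    · simp only [Set.indicator_of_mem h]; norm_num
    · simp only [Set.indicator_of_notMem h]; norm_num
  rw [hR2, hR3, int_F p a ha] at hR
  exact hR

lemma c_eq (p a : ℝ) (hp0 : 0 < p) (hp1 : p < 1) :
    gaussianPDFReal 0 1 a ^ 2 = p * (1 - p) * (1 / c p a) := by
  have hphi : gaussianPDFReal 0 1 a ^ 2 = (2 * Real.pi * Real.exp (a ^ 2))⁻¹ := by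
    unfold gaussianPDFReal
    rw [mul_pow, inv_pow, NNReal.coe_one, mul_one, Real.sq_sqrt (by positivity), sub_zero,
      ← Real.exp_nat_mul, mul_inv (2 * Real.pi), ← Real.exp_neg]
    congr 2
    push_cast
    ring
  rw [hphi]
  unfold c
  have h1 : (1 - p) ≠ 0 := by linarith
  have h2 : p ≠ 0 := hp0.ne'
  have h3 : Real.exp (a ^ 2) ≠ 0 := (Real.exp_pos _).ne'
  have h4 := Real.pi_ne_zero
  field_simp

lemma biv_F (p a : ℝ) (hp0 : 0 < p) (hp1 : p < 1) (ha : (gaussianReal 0 1).real (Set.Iic a) = p)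
    (r : ℝ) (hr0 : 0 ≤ r) (hr1 : r < 1) :
    biv (F a) (F a) r = (1 - p) ^ 2 + p * (1 - p) * psi p a r := by
  have h1 := biv_hasSum (F a) (F a) (F_meas a) (F_meas a) 1 1 (F_bound a) (F_bound a) r hr0 hr1
  have h2 : HasSum (fun n : ℕ => r ^ n * (cf (F a) n * cf (F a) n / (n ! : ℝ)))
      ((1 - p) ^ 2 + p * (1 - p) * psi p a r) := by
    refine (hasSum_nat_add_iff' (f := fun n : ℕ => r ^ n * (cf (F a) n * cf (F a) n / (n ! : ℝ))) 1).mp ?_
    have e0 : cf (F a) 0 = 1 - p := by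
      unfold cf
      simp only [He_zero, mul_one]
      exact int_F p a ha
    rw [Finset.sum_range_one, e0]
    have e1 : (1 - p) ^ 2 + p * (1 - p) * psi p a r - r ^ 0 * ((1 - p) * (1 - p) / ((0 ! : ℕ) : ℝ)) =
        p * (1 - p) * psi p a r := by
      simp
      ring
    rw [e1]
    have h3 := psi_hasSum p a r hr0 hr1
    have h4 := (hasSum_nat_add_iff' (f := fun n => r ^ n * v p a n) 1).mpr h3
    simp only [Finset.sum_range_one, v_zero, mul_zero, sub_zero] at h4
    refine (h4.mul_left (p * (1 - p))).congr_fun fun n => ?_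
    have e2 : cf (F a) (n + 1) = gaussianPDFReal 0 1 a * He n a := cf_Ici a n
    rw [e2, v_succ, H_sq, Nat.factorial_succ]
    have e3 : gaussianPDFReal 0 1 a * He n a * (gaussianPDFReal 0 1 a * He n a) =
        gaussianPDFReal 0 1 a ^ 2 * He n a ^ 2 := by ring
    rw [e3, c_eq p a hp0 hp1]
    have hn : (n ! : ℝ) ≠ 0 := by positivity
    have hn1 : (n : ℝ) + 1 ≠ 0 := by positivity
    have hc := (c_pos p a hp0 hp1).ne'
    push_cast
    field_simp
  exact h1.unique h2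

lemma psi_tendsto (p a : ℝ) (hp0 : 0 < p) (hp1 : p < 1) (ha : (gaussianReal 0 1).real (Set.Iic a) = p) :
    Tendsto (psi p a) (𝓝[<] 1) (𝓝 1) := by
  have hpp : p * (1 - p) ≠ 0 := mul_ne_zero hp0.ne' (by linarith)
  have h1 := ((biv_F_tendsto p a ha).sub_const ((1 - p) ^ 2)).div_const (p * (1 - p))
  have h2 : (1 - p - (1 - p) ^ 2) / (p * (1 - p)) = 1 := by
    rw [div_eq_one_iff_eq hpp]; ring
  rw [h2] at h1
  refine h1.congr' ?_
  have hev : ∀ᶠ r : ℝ in 𝓝[<] 1, 0 ≤ r := by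
    apply mem_nhdsWithin_of_mem_nhds
    exact Ici_mem_nhds one_pos
  filter_upwards [hev, self_mem_nhdsWithin] with r hr0 hr1
  rw [biv_F p a hp0 hp1 ha r hr0 hr1, add_sub_cancel_left, mul_div_cancel_left₀ _ hpp]

/-! ### Weak limits -/

lemma weak_limit (χ : ℕ → ℝ → ℝ) (hm : ∀ n, Measurable (χ n)) (hb : ∀ n x, |χ n x| ≤ 1) (U : Ultrafilter ℕ) :
    ∃ g : ℝ → ℝ, Measurable g ∧ (∀ x, |g x| ≤ 1) ∧ ∀ k, Tendsto (fun n => cf (χ n) k) U (𝓝 (cf g k)) := by
  have hL : ∀ n, MemLp (χ n) 2 gam := fun n => bdd_memLp (χ n) (hm n) 1 (hb n)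
  have hnorm : ∀ n, ‖(hL n).toLp (χ n)‖ ≤ 1 := by
    intro n
    have h1 := norm_sq_toLp (χ n) (hL n)
    have h2 : ∫ x, χ n x ^ 2 ∂gam ≤ 1 := by
      have h3 : ∫ x, χ n x ^ 2 ∂gam ≤ ∫ x, (1 : ℝ) ∂gam := by
        refine integral_mono_of_nonneg (Eventually.of_forall fun x => sq_nonneg _) (integrable_const _)
          (Eventually.of_forall fun x => ?_)
        show χ n x ^ 2 ≤ 1
        rw [← sq_abs]
        exact pow_le_one₀ (abs_nonneg _) (hb n x)
      simpa using h3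
    rw [← h1] at h2
    nlinarith [norm_nonneg ((hL n).toLp (χ n))]
  obtain ⟨x, hx⟩ : ∃ g0 : Lp ℝ 2 gam, ∀ y : Lp ℝ 2 gam,
      Tendsto (fun n => inner ℝ ((hL n).toLp (χ n)) y) U (𝓝 (inner ℝ g0 y)) := by
    let Φ : ℕ → WeakDual ℝ (Lp ℝ 2 gam) := fun n =>
      StrongDual.toWeakDual (InnerProductSpace.toDual ℝ (Lp ℝ 2 gam) ((hL n).toLp (χ n)))
    have hK := WeakDual.isCompact_closedBall (𝕜 := ℝ) (0 : StrongDual ℝ (Lp ℝ 2 gam)) 1
    have hmem : ∀ n, Φ n ∈ (WeakDual.toStrongDual ⁻¹' Metric.closedBall (0 : StrongDual ℝ (Lp ℝ 2 gam)) 1) := by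
      intro n
      rw [Set.mem_preimage, Metric.mem_closedBall, dist_zero_right]
      show ‖InnerProductSpace.toDual ℝ (Lp ℝ 2 gam) ((hL n).toLp (χ n))‖ ≤ 1
      rw [LinearIsometryEquiv.norm_map]
      exact hnorm n
    obtain ⟨x, _, hx⟩ := hK.ultrafilter_le_nhds (U.map Φ) (by
      rw [Ultrafilter.coe_map]
      exact tendsto_principal.mpr (Eventually.of_forall hmem))
    refine ⟨(InnerProductSpace.toDual ℝ (Lp ℝ 2 gam)).symm (WeakDual.toStrongDual x), fun y => ?_⟩
    have h1 : Tendsto Φ U (𝓝 x) := hx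
    have h2 := ((WeakDual.eval_continuous y).tendsto x).comp h1
    rw [InnerProductSpace.toDual_symm_apply]
    exact h2
  -- the bound
  have hset : ∀ s : Set ℝ, MeasurableSet s →
      Tendsto (fun n => ∫ t in s, χ n t ∂gam) U (𝓝 (∫ t in s, x t ∂gam)) := by
    intro s hs
    have h1 := hx (indicatorConstLp 2 hs (measure_ne_top gam s) (1 : ℝ))
    rw [real_inner_comm, L2.inner_indicatorConstLp_one] at h1
    refine h1.congr fun n => ?_
    rw [real_inner_comm, L2.inner_indicatorConstLp_one]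
    refine integral_congr_ae (ae_restrict_of_ae ?_)
    filter_upwards [(hL n).coeFn_toLp] with t ht using ht
  have hxi : Integrable x gam := (Lp.memLp x).integrable one_le_two
  have hle : ∀ n s, MeasurableSet s → |∫ t in s, χ n t ∂gam| ≤ gam.real s := by
    intro n s hs
    have := norm_setIntegral_le_of_norm_le_const (μ := gam) (s := s) (f := χ n) (C := 1) (measure_lt_top _ _)
      (fun t _ => by rw [Real.norm_eq_abs]; exact hb n t)
    simpa using this
  have hu : ∀ᵐ t ∂gam, x t ≤ 1 := by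
    refine ae_le_of_forall_setIntegral_le hxi (integrable_const (1 : ℝ)) fun s hs _ => ?_
    refine le_of_tendsto (hset s hs) (Eventually.of_forall fun n => ?_)
    rw [setIntegral_const, smul_eq_mul, mul_one]
    exact (abs_le.mp (hle n s hs)).2
  have hl : ∀ᵐ t ∂gam, -1 ≤ x t := by
    refine ae_le_of_forall_setIntegral_le (integrable_const (-1 : ℝ)) hxi fun s hs _ => ?_
    refine ge_of_tendsto (hset s hs) (Eventually.of_forall fun n => ?_)
    rw [setIntegral_const, smul_eq_mul, mul_neg, mul_one]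
    exact (abs_le.mp (hle n s hs)).1
  obtain ⟨g1, hg1, hg2⟩ : ∃ g1 : ℝ → ℝ, Measurable g1 ∧ x =ᵐ[gam] g1 := by
    have := (Lp.aestronglyMeasurable x)
    exact ⟨this.mk _, this.stronglyMeasurable_mk.measurable, this.ae_eq_mk⟩
  refine ⟨fun t => max (-1) (min 1 (g1 t)), by fun_prop, fun t => ?_, fun k => ?_⟩
  · rw [abs_le]
    exact ⟨le_max_left _ _, max_le (by norm_num) (min_le_left _ _)⟩
  · have h1 := hx ((He_memLp k).toLp (He k))
    have e1 : inner ℝ x ((He_memLp k).toLp (He k)) = cf (fun t => max (-1) (min 1 (g1 t))) k := by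
      rw [MeasureTheory.L2.inner_def]
      unfold cf
      refine integral_congr_ae ?_
      filter_upwards [hg2, (He_memLp k).coeFn_toLp, hu, hl] with t h1 h2 h3 h4
      rw [h2]
      rw [h1] at h3 h4
      simp only [RCLike.inner_apply, conj_trivial]
      rw [min_eq_right h3, max_eq_right h4, h1]
      ring
    rw [e1] at h1
    refine h1.congr fun n => ?_
    rw [MeasureTheory.L2.inner_def]
    unfold cf
    refine integral_congr_ae ?_
    filter_upwards [(hL n).coeFn_toLp, (He_memLp k).coeFn_toLp] with t h1 h2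
    rw [h1, h2]
    simp only [RCLike.inner_apply, conj_trivial]
    ring

lemma cf_sq_le (χ : ℝ → ℝ) (hχ : Measurable χ) (hb : ∀ x, |χ x| ≤ 1) (n : ℕ) :
    |cf χ n * cf χ n / (n ! : ℝ)| ≤ 1 := by
  have hn : (0 : ℝ) < (n ! : ℝ) := by positivity
  rw [abs_div, abs_of_pos hn, div_le_one hn, abs_mul]
  have h2 := cf_le χ hχ 1 hb n
  rw [one_mul] at h2
  calc |cf χ n| * |cf χ n| ≤ √(n ! : ℝ) * √(n ! : ℝ) :=
        mul_le_mul h2 h2 (abs_nonneg _) (Real.sqrt_nonneg _)
    _ = _ := Real.mul_self_sqrt hn.le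

lemma biv_tendsto (χ : ℕ → ℝ → ℝ) (hm : ∀ n, Measurable (χ n)) (hb : ∀ n x, |χ n x| ≤ 1) (U : Ultrafilter ℕ)
    (g : ℝ → ℝ) (hg : Measurable g) (hgb : ∀ x, |g x| ≤ 1)
    (h : ∀ k, Tendsto (fun n => cf (χ n) k) U (𝓝 (cf g k))) (r : ℝ) (hr0 : 0 ≤ r) (hr1 : r < 1) :
    Tendsto (fun n => biv (χ n) (χ n) r) U (𝓝 (biv g g r)) := by
  have h1 : ∀ n, biv (χ n) (χ n) r = ∑' k : ℕ, r ^ k * (cf (χ n) k * cf (χ n) k / (k ! : ℝ)) := fun n =>
    (biv_hasSum (χ n) (χ n) (hm n) (hm n) 1 1 (hb n) (hb n) r hr0 hr1).tsum_eq.symm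
  have h2 : biv g g r = ∑' k : ℕ, r ^ k * (cf g k * cf g k / (k ! : ℝ)) :=
    (biv_hasSum g g hg hg 1 1 hgb hgb r hr0 hr1).tsum_eq.symm
  simp_rw [h1]
  rw [h2]
  refine tendsto_tsum_of_dominated_convergence (summable_geometric_of_lt_one hr0 hr1) (fun k => ?_) ?_
  · exact (((h k).mul (h k)).div_const _).const_mul _
  · refine Eventually.of_forall fun n k => ?_
    rw [Real.norm_eq_abs, abs_mul, abs_of_nonneg (pow_nonneg hr0 k)]
    exact mul_le_of_le_one_right (pow_nonneg hr0 k) (cf_sq_le (χ n) (hm n) (hb n) k)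

/-! ### The identity theorem -/

lemma identity (e : ℕ → ℝ) (B : ℝ) (hB : ∀ n, |e n| ≤ B) (R : Set ℝ) (x₀ : ℝ)
    (hx₀ : x₀ ∈ Set.Ico (0 : ℝ) 1) (hacc : AccPt x₀ (𝓟 R)) (h : ∀ r ∈ R, HasSum (fun n => r ^ n * e n) 0) :
    ∀ n, e n = 0 := by
  let P : FormalMultilinearSeries ℝ ℝ ℝ := FormalMultilinearSeries.ofScalars ℝ e
  have hrad : 1 ≤ P.radius := by
    have := P.le_radius_of_bound B (r := 1) (fun n => by
      rw [NNReal.coe_one, one_pow, mul_one]
      show ‖FormalMultilinearSeries.ofScalars ℝ e n‖ ≤ B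
      rw [FormalMultilinearSeries.ofScalars_norm, Real.norm_eq_abs]
      exact hB n)
    simpa using this
  have hpos : 0 < P.radius := lt_of_lt_of_le (by norm_num) hrad
  have hball := P.hasFPowerSeriesOnBall hpos
  have hsum : ∀ x : ℝ, P.sum x = ∑' n, x ^ n * e n := by
    intro x
    unfold FormalMultilinearSeries.sum
    refine tsum_congr fun n => ?_
    show (FormalMultilinearSeries.ofScalars ℝ e n) (fun _ => x) = _
    rw [FormalMultilinearSeries.ofScalars_apply_eq]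
    simp [mul_comm]
  have han : AnalyticOnNhd ℝ P.sum (Metric.ball (0 : ℝ) 1) := by
    refine hball.analyticOnNhd.mono ?_
    rw [← Metric.eball_ofReal]
    exact Metric.eball_subset_eball (by simpa using hrad)
  have hfreq : ∃ᶠ z in 𝓝[≠] x₀, P.sum z = 0 := by
    rw [accPt_iff_frequently_nhdsNE] at hacc
    refine hacc.mono fun z hz => ?_
    rw [hsum]
    exact (h z hz).tsum_eq
  have hz := han.eqOn_zero_of_preconnected_of_frequently_eq_zero (convex_ball _ _).isPreconnected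
    (by rw [Metric.mem_ball, dist_zero_right, Real.norm_eq_abs, abs_of_nonneg hx₀.1]; exact hx₀.2) hfreq
  refine ps_unique e B hB fun r hr0 hr1 => ?_
  have h1 : P.sum r = 0 := hz (by
    rw [Metric.mem_ball, dist_zero_right, Real.norm_eq_abs, abs_of_pos hr0]; exact hr1)
  rw [hsum] at h1
  rw [← h1]
  refine Summable.hasSum (Summable.of_norm_bounded ((summable_geometric_of_lt_one hr0.le hr1).mul_right B)
    fun n => ?_)
  rw [norm_mul, norm_pow, Real.norm_eq_abs, abs_of_pos hr0, Real.norm_eq_abs]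
  exact mul_le_mul_of_nonneg_left (hB n) (by positivity)

lemma biv_eq (χ : ℝ → ℝ) (hχ : Measurable χ) (r : ℝ) : ∫ q, χ q.1 * χ q.2 ∂(bivariate r) = biv χ χ r := by
  unfold bivariate biv
  rw [integral_map (by fun_prop)]
  exact ((hχ.comp measurable_fst).mul (hχ.comp measurable_snd)).aestronglyMeasurable

/-- no `[-1,1]`-valued function has `h_χ = ψ` on `R` -/
lemma exact_case (p a : ℝ) (hp0 : 0 < p) (hp1 : p < 1) (hp : p ≠ 1 / 2)
    (ha : (gaussianReal 0 1).real (Set.Iic a) = p) (R : Set ℝ) (hR : R ⊆ Set.Ico 0 1) (x₀ : ℝ)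
    (hx₀ : x₀ ∈ Set.Ico (0 : ℝ) 1) (hacc : AccPt x₀ (𝓟 R))
    (χ : ℝ → ℝ) (hχ : Measurable χ) (hb : ∀ x, |χ x| ≤ 1)
    (h : ∀ r ∈ R, biv χ χ r = psi p a r) : False := by
  obtain ⟨B, hB⟩ := v_bound p a hp0 hp1
  have he : ∀ n, cf χ n * cf χ n / (n ! : ℝ) - v p a n = 0 := by
    refine identity (fun n => cf χ n * cf χ n / (n ! : ℝ) - v p a n) (1 + B) (fun n => ?_) R x₀ hx₀ hacc
      fun r hr => ?_
    · exact (abs_sub _ _).trans (add_le_add (cf_sq_le χ hχ hb n) (hB n))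
    · have h0 := hR hr
      have h1 := (biv_hasSum χ χ hχ hχ 1 1 hb hb r h0.1 h0.2).sub (psi_hasSum p a r h0.1 h0.2)
      rw [h r hr, sub_self] at h1
      refine h1.congr_fun fun n => ?_
      ring
  have hall : ∀ r : ℝ, 0 ≤ r → r < 1 → biv χ χ r = psi p a r := by
    intro r hr0 hr1
    refine (biv_hasSum χ χ hχ hχ 1 1 hb hb r hr0 hr1).unique ((psi_hasSum p a r hr0 hr1).congr_fun fun n => ?_)
    have := he n
    have h2 : cf χ n * cf χ n / (n ! : ℝ) = v p a n := by linarith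
    rw [h2]
  have hL := bdd_memLp χ hχ 1 hb
  have hbes := bessel_le χ hL
  have hbs := bessel χ hL
  have hev : ∀ᶠ r : ℝ in 𝓝[<] 1, 0 ≤ r := by
    apply mem_nhdsWithin_of_mem_nhds
    exact Ici_mem_nhds one_pos
  have h1 : 1 ≤ ∫ x, χ x ^ 2 ∂gam := by
    refine le_trans (le_of_tendsto (psi_tendsto p a hp0 hp1 ha) ?_) hbes
    filter_upwards [hev, self_mem_nhdsWithin] with r hr0 hr1
    rw [← hall r hr0 hr1]
    have h2 := biv_hasSum χ χ hχ hχ 1 1 hb hb r hr0 hr1
    rw [← h2.tsum_eq]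
    refine h2.summable.tsum_le_tsum (fun n => ?_) hbs
    rw [← sq]
    exact mul_le_of_le_one_left (by positivity) (pow_le_one₀ hr0 (le_of_lt hr1))
  have h2 : ∀ᵐ x ∂gam, χ x ^ 2 = 1 := by
    have h3 : ∀ x, 0 ≤ 1 - χ x ^ 2 := by
      intro x
      have : χ x ^ 2 ≤ 1 := by
        rw [← sq_abs]
        exact pow_le_one₀ (abs_nonneg _) (hb x)
      linarith
    have hi : Integrable (fun x => χ x ^ 2) gam := hL.integrable_sq
    have h4 : ∫ x, (1 - χ x ^ 2) ∂gam = 0 := by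
      have h5 : ∫ x, (1 - χ x ^ 2) ∂gam = 1 - ∫ x, χ x ^ 2 ∂gam := by
        rw [integral_sub (integrable_const _) hi]
        simp
      have h6 : 0 ≤ ∫ x, (1 - χ x ^ 2) ∂gam := integral_nonneg h3
      linarith
    rw [integral_eq_zero_iff_of_nonneg h3 ((integrable_const _).sub hi)] at h4
    filter_upwards [h4] with x hx
    have : 1 - χ x ^ 2 = 0 := hx
    linarith
  let χ' : ℝ → ℝ := fun x => if 0 ≤ χ x then 1 else -1
  have hχ'm : Measurable χ' := Measurable.ite (measurableSet_le measurable_const hχ) measurable_const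
    measurable_const
  have hχ'1 : ∀ x, χ' x = 1 ∨ χ' x = -1 := by
    intro x
    by_cases hx : 0 ≤ χ x
    · left; simp [χ', hx]
    · right; simp [χ', hx]
  have hχ'b : ∀ x, |χ' x| ≤ 1 := fun x => by rcases hχ'1 x with h | h <;> simp [h]
  have hae : ∀ᵐ x ∂gam, χ' x = χ x := by
    filter_upwards [h2] with x hx
    have h3 : χ x = 1 ∨ χ x = -1 := by
      have : (χ x - 1) * (χ x + 1) = 0 := by nlinarith
      rcases mul_eq_zero.mp this with h | h
      · left; linarith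
      · right; linarith
    rcases h3 with h | h
    · simp [χ', h]
    · simp only [χ', h]
      norm_num
  have hcf : ∀ n, cf χ' n = cf χ n := by
    intro n
    unfold cf
    refine integral_congr_ae ?_
    filter_upwards [hae] with x hx
    rw [hx]
  obtain ⟨ρ, hρ, hne⟩ := NoSignRealisation.result p a hp0 hp1 hp ha χ' hχ'm hχ'1
  apply hne
  have h3 := biv_eq χ' hχ'm ρ
  have h4 : biv χ' χ' ρ = biv χ χ ρ := by
    refine (biv_hasSum χ' χ' hχ'm hχ'm 1 1 hχ'b hχ'b ρ hρ.1.le hρ.2).unique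
      ((biv_hasSum χ χ hχ hχ 1 1 hb hb ρ hρ.1.le hρ.2).congr_fun fun n => ?_)
    rw [hcf]
  exact h3.trans (h4.trans (hall ρ hρ.1.le hρ.2))

/-- **Uniform gap.** Let `p ∈ (0,1)`, `p ≠ 1/2` and let `R ⊆ [0,1)` have an accumulation point in `[0,1)`. There
is `δ > 0` such that for every Borel function `χ : ℝ → [-1,1]` there is `ρ ∈ R` with
`|E[χ(X)χ(Y)] - ψ(p,p;ρ)| ≥ δ`, where `(X,Y)` is standard bivariate normal with correlation `ρ`. -/
theorem result (p a : ℝ) (hp0 : 0 < p) (hp1 : p < 1) (hp : p ≠ 1 / 2)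
    (ha : (gaussianReal 0 1).real (Set.Iic a) = p)
    (R : Set ℝ) (hR : R ⊆ Set.Ico 0 1) (x₀ : ℝ) (hx₀ : x₀ ∈ Set.Ico (0 : ℝ) 1) (hacc : AccPt x₀ (𝓟 R)) :
    ∃ δ : ℝ, 0 < δ ∧ ∀ χ : ℝ → ℝ, Measurable χ → (∀ x, |χ x| ≤ 1) →
      ∃ ρ ∈ R, δ ≤ |∫ q, χ q.1 * χ q.2 ∂(bivariate ρ) - psi p a ρ| := by
  by_contra hcon
  push Not at hcon
  have hch : ∀ n : ℕ, ∃ χ : ℝ → ℝ, Measurable χ ∧ (∀ x, |χ x| ≤ 1) ∧
      ∀ ρ ∈ R, |∫ q, χ q.1 * χ q.2 ∂(bivariate ρ) - psi p a ρ| < 1 / ((n : ℝ) + 1) := fun n =>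
    hcon (1 / ((n : ℝ) + 1)) (by positivity)
  choose χ hm hb hχ using hch
  let U : Ultrafilter ℕ := Filter.hyperfilter ℕ
  have hU : (U : Filter ℕ) ≤ atTop := by
    rw [← Nat.cofinite_eq_atTop]
    exact Filter.hyperfilter_le_cofinite
  obtain ⟨g, hg, hgb, hlim⟩ := weak_limit χ hm hb U
  refine exact_case p a hp0 hp1 hp ha R hR x₀ hx₀ hacc g hg hgb fun r hr => ?_
  have h0 := hR hr
  have h1 := biv_tendsto χ hm hb U g hg hgb hlim r h0.1 h0.2
  have h2 : Tendsto (fun n => biv (χ n) (χ n) r) U (𝓝 (psi p a r)) := by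
    rw [tendsto_iff_dist_tendsto_zero]
    have h3 : Tendsto (fun n : ℕ => 1 / ((n : ℝ) + 1)) U (𝓝 0) :=
      tendsto_one_div_add_atTop_nhds_zero_nat.mono_left hU
    refine squeeze_zero (fun n => dist_nonneg) (fun n => ?_) h3
    rw [Real.dist_eq, ← biv_eq (χ n) (hm n)]
    exact (hχ n r hr).le
  exact tendsto_nhds_unique h1 h2

end Pool.Agent.Results.MP_1b6454_pr.UniformGap
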